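import Pool.Agent.H96.NP6

namespace Pool.Agent.Results.MP_9aae89_an.No

/-- Euclidean three-space. -/
abbrev E3 : Type := EuclideanSpace ℝ (Fin 3)

/-- The profile `α x₁⁺ - β x₁⁻`. -/
noncomputable def U (α β : ℝ) (x : E3) : ℝ := α * max (x 0) 0 - β * max (-x 0) 0

theorem result : ∃ f : ℝ → ℝ, ContDiff ℝ (⊤ : ℕ∞) f ∧ HasCompactSupport f ∧ (∀ s, 0 ≤ f s) ∧
    (0 < ∫ s, f s) ∧ ∃ u : E3 → ℝ, ContDiff ℝ 2 u ∧ (∀ x, Laplacian.laplacian u x = f (u x)) ∧
    (∃ α β : ℝ, 0 < α ∧ 0 ≤ β ∧ α ^ 2 - β ^ 2 = 2 * (∫ s, f s) ∧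
      ∃ Φ : E3 ≃ₜ E3, ∀ x, u x = U α β (Φ x)) ∧
    ¬ ∃ (ρ : E3 ≃ᵃⁱ[ℝ] E3) (V : ℝ → ℝ), ∀ x, u (ρ x) = V (x 0) := by
  obtain ⟨f, f1, f2, f3, f4, w, w1, w2, w3, w4⟩ := Pool.Agent.H96.NP.exists_sol
  have hP := Pool.Agent.H96.NP.PP9_smooth 2
  have hi := Pool.Agent.H96.NP.incr w w1 w4
  refine ⟨f, f1, f2, f3, f4, fun p => Pool.Agent.H96.NP.PP9 p + w p, hP.add w1, fun x => ?_, ?_, ?_⟩
  · have := hP.contDiffAt.laplacian_add (x := x) w1.contDiffAt
    rw [Pool.Agent.H96.NP.PP9_lap, zero_add, w2] at this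
    exact this
  · set α := Real.sqrt (1 + 2 * ∫ s, f s) with hα
    have α1 : 1 ≤ α := Real.one_le_sqrt.2 (by linarith)
    have α0 : 0 < α := by linarith
    let l : ℝ → ℝ := fun t => max t 0 / α - max (-t) 0
    have hl : ∀ s t, s ≤ t → l s + (t - s) / α ≤ l t := by
      intro s t hst
      have h1 : ∀ x : ℝ, 0 ≤ x → x / α ≤ x := fun x hx => div_le_self hx α1
      simp only [l]
      rcases le_total 0 s with hs | hs
      · rw [max_eq_left hs, max_eq_left (hs.trans hst), max_eq_right (by linarith),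
          max_eq_right (by linarith), sub_div]; linarith
      · rcases le_total 0 t with ht | ht
        · rw [max_eq_right hs, max_eq_left ht, max_eq_left (by linarith),
            max_eq_right (by linarith), sub_div]
          have := h1 (-s) (by linarith); rw [neg_div] at this; simp; linarith
        · rw [max_eq_right hs, max_eq_right ht, max_eq_left (by linarith),
            max_eq_left (by linarith)]
          linarith [h1 (t - s) (by linarith)]
    obtain ⟨Φ, hΦ⟩ := Pool.Agent.H96.NP.shear (fun p => l (Pool.Agent.H96.NP.PP9 p + w p))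
      (by have := hP.continuous; have := w1.continuous; simp only [l]; fun_prop) (1 / 2 / α)
      (by positivity) fun p t ht => by
        have h1 := hi p t ht
        have h2 := hl _ _ (le_trans (le_add_of_nonneg_right (by positivity)) h1)
        refine le_trans ?_ h2
        rw [div_mul_eq_mul_div]
        gcongr
        linarith
    refine ⟨α, 1, α0, zero_le_one, by rw [hα, Real.sq_sqrt (by linarith)]; ring, Φ, fun x => ?_⟩
    simp only [U, hΦ, l]
    rcases le_total 0 (Pool.Agent.H96.NP.PP9 x + w x) with h | h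
    · have := div_nonneg h α0.le
      rw [max_eq_left h, max_eq_right (a := -_) (by linarith), sub_zero, max_eq_left this,
        max_eq_right (by linarith)]
      field_simp; ring
    · rw [max_eq_right h, max_eq_left (a := -_) (by linarith), zero_div, zero_sub, neg_neg,
        max_eq_right h, max_eq_left (by linarith)]
      ring
  · rintro ⟨ρ, V, h⟩
    exact Pool.Agent.H96.NP.not1d _ (fun p => by simpa using w3 p) hi ρ V h

end Pool.Agent.Results.MP_9aae89_an.No
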